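import Pool.Agent.H41.GK.Fin

/-!
# MP_d5700b: a lower bound sieve for the least binomial coefficient free of primes up to `k`

For every `ε > 0` and all large `k`,
`log g(k) ≤ ∑_{p ≤ k} min(1, 2 {k/p}) log p + ε k`, hence, by the prime number theorem,
`log g(k) ≤ (1 - γ + log (4/π) + ε) k`, where `1 - γ + log (4/π) = 0.664...`; in particular
`g(k) < 2^k` for all large `k`.
-/

set_option autoImplicit false

namespace Pool.Agent.Results.MP_d5700b_nt.SieveExponent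

/-- every prime divisor of `m.choose k` is larger than `k` -/
def AllPrimesAbove (k m : ℕ) : Prop := ∀ p : ℕ, p.Prime → p ∣ m.choose k → k < p

/-- the least `m ≥ k + 2` such that every prime divisor of `m.choose k` exceeds `k` -/
noncomputable def g (k : ℕ) : ℕ := sInf {m : ℕ | k + 2 ≤ m ∧ AllPrimesAbove k m}

theorem result :
    (∀ ε : ℝ, 0 < ε → ∃ k₀ : ℕ, ∀ k : ℕ, k₀ ≤ k →
      (k + 2 ≤ g k ∧ AllPrimesAbove k (g k)) ∧
      Real.log (g k) ≤ ∑ p ∈ (Finset.Icc 1 k).filter Nat.Prime,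
        min 1 (2 * Int.fract ((k : ℝ) / p)) * Real.log p + ε * k ∧
      Real.log (g k) ≤
        (1 - Real.eulerMascheroniConstant + Real.log (4 / Real.pi) + ε) * k) ∧
    ∃ k₀ : ℕ, ∀ k : ℕ, k₀ ≤ k → g k < 2 ^ k := by
  have h1 : ∀ ε : ℝ, 0 < ε → ∃ k₀ : ℕ, ∀ k : ℕ, k₀ ≤ k →
      (k + 2 ≤ g k ∧ AllPrimesAbove k (g k)) ∧
      Real.log (g k) ≤ ∑ p ∈ (Finset.Icc 1 k).filter Nat.Prime,
        min 1 (2 * Int.fract ((k : ℝ) / p)) * Real.log p + ε * k := by
    intro ε hε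
    obtain ⟨k₀, hk₀⟩ := H41.GK.exists_n ε hε
    refine ⟨k₀, fun k hk => ?_⟩
    obtain ⟨n, hn, hnp, hlog⟩ := hk₀ k hk
    have hmem : n ∈ {m : ℕ | k + 2 ≤ m ∧ AllPrimesAbove k m} := by
      refine ⟨hn, fun p hp hdvd => ?_⟩
      by_contra hcon
      exact hnp p hp (not_lt.1 hcon) hdvd
    have hg : g k ∈ {m : ℕ | k + 2 ≤ m ∧ AllPrimesAbove k m} := Nat.sInf_mem ⟨n, hmem⟩
    have hle : g k ≤ n := Nat.sInf_le hmem
    refine ⟨hg, le_trans (Real.log_le_log ?_ (by exact_mod_cast hle)) hlog⟩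
    have : 0 < g k := by
      have := hg.1
      omega
    exact_mod_cast this
  have h2 : ∀ ε : ℝ, 0 < ε → ∃ k₀ : ℕ, ∀ k : ℕ, k₀ ≤ k →
      (k + 2 ≤ g k ∧ AllPrimesAbove k (g k)) ∧
      Real.log (g k) ≤ ∑ p ∈ (Finset.Icc 1 k).filter Nat.Prime,
        min 1 (2 * Int.fract ((k : ℝ) / p)) * Real.log p + ε * k ∧
      Real.log (g k) ≤
        (1 - Real.eulerMascheroniConstant + Real.log (4 / Real.pi) + ε) * k := by
    intro ε hε
    obtain ⟨k₁, hk₁⟩ := h1 ε hε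
    obtain ⟨k₂, hk₂⟩ := h1 (ε / 2) (by positivity)
    obtain ⟨k₃, hk₃⟩ := H41.GK.sum_le (ε / 2) (by positivity)
    refine ⟨max k₁ (max k₂ k₃), fun k hk => ?_⟩
    have a1 := hk₁ k ((le_max_left _ _).trans hk)
    have a2 := hk₂ k (((le_max_left _ _).trans (le_max_right _ _)).trans hk)
    have a3 := hk₃ k (((le_max_right _ _).trans (le_max_right _ _)).trans hk)
    refine ⟨a1.1, a1.2, a2.2.trans ?_⟩
    unfold H41.GK.PK H41.GK.c0 at a3
    linarith
  refine ⟨h2, ?_⟩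
  have hc := H41.GK.c0_lt
  unfold H41.GK.c0 at hc
  obtain ⟨k₀, hk₀⟩ := h2 ((Real.log 2 -
    (1 - Real.eulerMascheroniConstant + Real.log (4 / Real.pi))) / 2) (by linarith)
  refine ⟨max k₀ 1, fun k hk => ?_⟩
  obtain ⟨⟨hgk, -⟩, -, hlog⟩ := hk₀ k ((le_max_left _ _).trans hk)
  have hk1 : (1 : ℝ) ≤ k := by exact_mod_cast (le_max_right _ _).trans hk
  have hlt : Real.log (g k) < Real.log ((2 : ℝ) ^ k) := by
    rw [Real.log_pow]
    refine hlog.trans_lt ?_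
    nlinarith
  have hg0 : (0 : ℝ) < g k := by
    have : 0 < g k := by omega
    exact_mod_cast this
  have := (Real.log_lt_log_iff hg0 (by positivity)).1 hlt
  exact_mod_cast this

end Pool.Agent.Results.MP_d5700b_nt.SieveExponent
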